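import Mathlib

/-!
For every finite nonempty graph `G` and every `k ≥ 2` the least `t` with
`χ_DP(G □ K_{k,t}) = χ_DP(G) + k` is strictly smaller than `P_DP(G, χ_DP(G) + k - 1) ^ k`.

Idea: put the same extremal cover on all `k` copies of `G` belonging to the `k`-side.  If `φ` and
`ψ` are two of its colourings that differ at every vertex, one single copy of `G` on the `t`-side
can block both the combination `(φ, φ, φ, …)` and the combination `(ψ, ψ, φ, …)`, by crossing the
first two matchings.  Hence `P ^ k - 1` copies suffice to block all `P ^ k` combinations.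
-/

set_option autoImplicit false

namespace Pool.Agent.Results.MP_924496_co.StrictForAllK

open SimpleGraph

/-- A cover `(L, H)` of the graph `G`, where `H` is a graph with vertex type `W`. -/
structure Cover {V : Type} (G : SimpleGraph V) (W : Type) where
  /-- The graph `H`. -/
  H : SimpleGraph W
  /-- The list of each vertex of `G`, a set of vertices of `H`. -/
  L : V → Set W
  /-- The lists partition the vertex set of `H`. -/
  partition : ∀ w : W, ∃! v : V, w ∈ L v
  /-- Each list is a clique of `H`. -/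
  clique : ∀ v : V, H.IsClique (L v)
  /-- For an edge `u v` of `G`, the edges of `H` between `L u` and `L v` form a matching. -/
  matching : ∀ u v : V, G.Adj u v → ∀ a ∈ L u, ∀ b ∈ L v, ∀ b' ∈ L v,
    H.Adj a b → H.Adj a b' → b = b'
  /-- There are no edges of `H` between the lists of two distinct non-adjacent vertices. -/
  nonadj : ∀ u v : V, u ≠ v → ¬ G.Adj u v → ∀ a ∈ L u, ∀ b ∈ L v, ¬ H.Adj a b

/-- The cover is `m`-fold: every list has exactly `m` elements. -/
def Cover.IsFold {V W : Type} {G : SimpleGraph V} (C : Cover G W) (m : ℕ) : Prop :=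
  ∀ v, (C.L v).ncard = m

/-- The colourings of `G` with respect to the cover: independent sets of `H` of size `|V(G)|`. -/
def Cover.colorings {V W : Type} {G : SimpleGraph V} (C : Cover G W) : Set (Set W) :=
  {I | C.H.IsIndepSet I ∧ I.ncard = Nat.card V}

/-- The DP-chromatic number: the least `m` such that every `m`-fold (finite) cover of `G` admits a
colouring. -/
noncomputable def chiDP {V : Type} (G : SimpleGraph V) : ℕ :=
  sInf {m | ∀ (W : Type) [Finite W] (C : Cover G W), C.IsFold m → C.colorings.Nonempty}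

/-- The DP colour function: the minimum number of colourings over all `m`-fold (finite) covers. -/
noncomputable def PDP {V : Type} (G : SimpleGraph V) (m : ℕ) : ℕ :=
  sInf {n | ∃ (W : Type) (_ : Finite W) (C : Cover G W), C.IsFold m ∧ C.colorings.ncard = n}

/-! ### Basic facts -/

section basic

variable {V W : Type} {G : SimpleGraph V}

/-- The vertex of `G` in whose list `w` lies. -/
noncomputable def Cover.part (C : Cover G W) (w : W) : V := (C.partition w).choose

lemma Cover.mem_iff (C : Cover G W) (w : W) (v : V) : w ∈ C.L v ↔ C.part w = v := by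
  have h := (C.partition w).choose_spec
  constructor
  · intro hv
    exact (h.2 v hv).symm
  · rintro rfl
    exact h.1

lemma Cover.adj_part (C : Cover G W) {a b : W} (h : C.H.Adj a b) (hne : C.part a ≠ C.part b) :
    G.Adj (C.part a) (C.part b) := by
  by_contra hG
  exact C.nonadj _ _ hne hG a ((C.mem_iff _ _).2 rfl) b ((C.mem_iff _ _).2 rfl) h

/-- Transversal description of colourings. -/
def Cover.Trans (C : Cover G W) : Set (V → W) :=
  {φ | (∀ v, φ v ∈ C.L v) ∧ ∀ u v, ¬ C.H.Adj (φ u) (φ v)}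

lemma trans_inj (C : Cover G W) {φ : V → W} (h : φ ∈ C.Trans) : Function.Injective φ := by
  intro u v huv
  have h1 := (C.mem_iff _ _).1 (h.1 u)
  have h2 := (C.mem_iff _ _).1 (h.1 v)
  rw [← h1, ← h2, huv]

lemma bijOn_range [Finite V] [Finite W] (C : Cover G W) :
    Set.BijOn (fun φ : V → W => Set.range φ) C.Trans C.colorings := by
  refine ⟨?_, ?_, ?_⟩
  · intro φ hφ
    refine ⟨?_, ?_⟩
    · rintro _ ⟨u, rfl⟩ _ ⟨v, rfl⟩ _
      exact hφ.2 u v
    · show (Set.range φ).ncard = Nat.card V
      rw [← Set.image_univ, Set.ncard_image_of_injective _ (trans_inj C hφ), Set.ncard_univ]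
  · intro φ hφ ψ hψ h
    funext v
    have hv : φ v ∈ Set.range ψ := by
      have : φ v ∈ Set.range φ := ⟨v, rfl⟩
      simpa [h] using this
    obtain ⟨u, hu⟩ := hv
    have h1 := (C.mem_iff _ _).1 (hφ.1 v)
    have h2 := (C.mem_iff _ _).1 (hψ.1 u)
    have : u = v := by rw [← h1, ← h2, hu]
    rw [← hu, this]
  · rintro I ⟨hI, hc⟩
    have hinj : Set.InjOn C.part I := by
      intro a ha b hb hab
      by_contra hne
      have h1 : C.H.Adj a b :=
        C.clique (C.part b) ((C.mem_iff _ _).2 hab) ((C.mem_iff _ _).2 rfl) hne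
      exact hI ha hb hne h1
    have himg : C.part '' I = Set.univ := by
      apply Set.eq_of_subset_of_ncard_le (Set.subset_univ _) _ (Set.toFinite _)
      rw [hinj.ncard_image, hc, Set.ncard_univ]
    have hex : ∀ v, ∃ w, w ∈ I ∧ C.part w = v := by
      intro v
      have : v ∈ C.part '' I := by rw [himg]; trivial
      exact this
    choose φ hφ using hex
    have hφT : φ ∈ C.Trans := by
      refine ⟨fun v => (C.mem_iff _ _).2 (hφ v).2, ?_⟩
      intro u v h
      exact hI (hφ u).1 (hφ v).1 h.ne h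
    refine ⟨φ, hφT, ?_⟩
    apply Set.eq_of_subset_of_ncard_le _ _ (Set.toFinite _)
    · rintro _ ⟨v, rfl⟩
      exact (hφ v).1
    · show I.ncard ≤ (Set.range φ).ncard
      rw [← Set.image_univ, Set.ncard_image_of_injective _ (trans_inj C hφT), Set.ncard_univ, hc]

lemma ncard_colorings [Finite V] [Finite W] (C : Cover G W) :
    C.colorings.ncard = C.Trans.ncard := by
  rw [← (bijOn_range C).image_eq, (bijOn_range C).injOn.ncard_image]

lemma colorings_nonempty_iff [Finite V] [Finite W] (C : Cover G W) :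
    C.colorings.Nonempty ↔ C.Trans.Nonempty := by
  rw [← (bijOn_range C).image_eq, Set.image_nonempty]

/-- Build a cover from the map sending a vertex of `H` to the vertex of `G` it lies over. -/
def ofPart (H : SimpleGraph W) (part : W → V)
    (h1 : ∀ a b, a ≠ b → part a = part b → H.Adj a b)
    (h2 : ∀ a b b', H.Adj a b → H.Adj a b' → part b = part b' → part a ≠ part b → b = b')
    (h3 : ∀ a b, H.Adj a b → part a ≠ part b → G.Adj (part a) (part b)) : Cover G W where
  H := H
  L := fun v => {w | part w = v}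
  partition := by
    intro w
    exact ⟨part w, rfl, fun v hv => hv.symm⟩
  clique := by
    intro v a ha b hb hne
    exact h1 a b hne (ha.trans hb.symm)
  matching := by
    intro u v huv a ha b hb b' hb' hab hab'
    refine h2 a b b' hab hab' (hb.trans hb'.symm) ?_
    intro h
    apply huv.ne
    rw [← show part a = u from ha, ← show part b = v from hb, h]
  nonadj := by
    intro u v hne hG a ha b hb hab
    apply hG
    have h4 := h3 a b hab (by
      intro h
      apply hne
      rw [← show part a = u from ha, ← show part b = v from hb, h])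
    rw [← show part a = u from ha, ← show part b = v from hb]
    exact h4

/-- The set whose minimum is the DP-chromatic number. -/
def Good (G : SimpleGraph V) : Set ℕ :=
  {m | ∀ (W : Type) [Finite W] (C : Cover G W), C.IsFold m → C.colorings.Nonempty}

/-- The sub-cover of one copy of `G`, restricted to a set `T` of vertices. -/
def restr {U : Type} {G' : SimpleGraph U} (C : Cover G' W) (ι : V → U) (hι : Function.Injective ι)
    (hG : ∀ u v, G'.Adj (ι u) (ι v) ↔ G.Adj u v) (T : Set W) (hT : ∀ w ∈ T, ∃ v, w ∈ C.L (ι v)) :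
    Cover G T where
  H := C.H.comap Subtype.val
  L := fun v => {w | w.1 ∈ C.L (ι v)}
  partition := by
    rintro ⟨w, hw⟩
    obtain ⟨v, hv⟩ := hT w hw
    refine ⟨v, hv, ?_⟩
    intro u hu
    apply hι
    exact (C.partition w).unique hu hv
  clique := by
    intro v a ha b hb hne
    exact C.clique (ι v) ha hb (fun h => hne (Subtype.ext h))
  matching := by
    intro u v huv a ha b hb b' hb' hab hab'
    exact Subtype.ext (C.matching (ι u) (ι v) ((hG u v).2 huv) a.1 ha b.1 hb b'.1 hb' hab hab')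
  nonadj := by
    intro u v hne hn a ha b hb hab
    exact C.nonadj (ι u) (ι v) (fun h => hne (hι h)) (fun h => hn ((hG u v).1 h)) a.1 ha b.1 hb hab

/-- If `c` is good for `G`, every embedded copy of `G` in a covered graph can be coloured inside any
set meeting all the lists in at least `c` elements. -/
lemma exists_trans [Finite V] [Finite W] {U : Type} {G' : SimpleGraph U} {c : ℕ} (hc : c ∈ Good G)
    (C : Cover G' W) (ι : V → U) (hι : Function.Injective ι)
    (hG : ∀ u v, G'.Adj (ι u) (ι v) ↔ G.Adj u v) (T : Set W)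
    (hT : ∀ v, c ≤ (C.L (ι v) ∩ T).ncard) :
    ∃ φ : V → W, (∀ v, φ v ∈ C.L (ι v)) ∧ (∀ v, φ v ∈ T) ∧ ∀ u v, ¬ C.H.Adj (φ u) (φ v) := by
  have hex : ∀ v, ∃ A ⊆ C.L (ι v) ∩ T, A.ncard = c := fun v =>
    Set.exists_subset_card_eq (hT v)
  choose A hA hAc using hex
  let T' : Set W := ⋃ v, A v
  have hT' : ∀ w ∈ T', ∃ v, w ∈ C.L (ι v) := by
    intro w hw
    obtain ⟨v, hv⟩ := Set.mem_iUnion.1 hw
    exact ⟨v, (hA v hv).1⟩
  have hfold : (restr C ι hι hG T' hT').IsFold c := by
    intro v
    have : Subtype.val '' ((restr C ι hι hG T' hT').L v) = A v := by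
      ext w
      constructor
      · rintro ⟨⟨w', hw'⟩, h1, rfl⟩
        obtain ⟨u, hu⟩ := Set.mem_iUnion.1 hw'
        have h2 : w' ∈ C.L (ι u) := (hA u hu).1
        have h3 : ι u = ι v := (C.partition w').unique h2 h1
        have h4 : u = v := hι h3
        rw [← h4]
        exact hu
      · intro hw
        exact ⟨⟨w, Set.mem_iUnion.2 ⟨v, hw⟩⟩, (hA v hw).1, rfl⟩
    rw [← hAc v, ← this, Set.ncard_image_of_injective _ Subtype.val_injective]
  have hne := hc _ (restr C ι hι hG T' hT') hfold
  rw [colorings_nonempty_iff] at hne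
  obtain ⟨φ, hφ1, hφ2⟩ := hne
  refine ⟨fun v => (φ v).1, fun v => hφ1 v, fun v => ?_, fun u v h => hφ2 u v h⟩
  obtain ⟨u, hu⟩ := Set.mem_iUnion.1 (φ v).2
  exact (hA u hu).2

/-- Greedy colouring: `|V|` is good. -/
lemma good_nonempty [Finite V] (G : SimpleGraph V) : (Good G).Nonempty := by
  classical
  have := Fintype.ofFinite V
  refine ⟨Fintype.card V, ?_⟩
  intro W _ C hC
  rw [colorings_nonempty_iff]
  have key : ∀ s : Finset V, ∃ φ : V → W, (∀ v ∈ s, φ v ∈ C.L v) ∧
      ∀ u ∈ s, ∀ v ∈ s, ¬ C.H.Adj (φ u) (φ v) := by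
    intro s
    induction s using Finset.induction_on with
    | empty =>
      by_cases hV : Nonempty V
      · obtain ⟨v0⟩ := hV
        have : (C.L v0).Nonempty := by
          rw [← Set.ncard_pos (Set.toFinite _), hC v0]
          exact Fintype.card_pos_iff.2 ⟨v0⟩
        obtain ⟨w, _⟩ := this
        exact ⟨fun _ => w, by simp, by simp⟩
      · exact ⟨fun v => (hV ⟨v⟩).elim, by simp, by simp⟩
    | insert v s hv ih =>
      obtain ⟨φ, h1, h2⟩ := ih
      -- forbidden vertices
      let F : Set W := ⋃ u ∈ s, {w | w ∈ C.L v ∧ C.H.Adj (φ u) w}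
      have hF : F.ncard ≤ s.card := by
        have hle : ∀ t : Finset V, t ⊆ s →
            (⋃ u ∈ t, {w | w ∈ C.L v ∧ C.H.Adj (φ u) w}).ncard ≤ t.card := by
          intro t
          induction t using Finset.induction_on with
          | empty => simp
          | insert x t hx iht =>
            intro hts
            rw [Finset.set_biUnion_insert, Finset.card_insert_of_notMem hx]
            refine le_trans (Set.ncard_union_le _ _) ?_
            have h3 : ({w | w ∈ C.L v ∧ C.H.Adj (φ x) w} : Set W).ncard ≤ 1 := by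
              rw [Set.ncard_le_one (Set.toFinite _)]
              rintro a ⟨ha, ha'⟩ b ⟨hb, hb'⟩
              have hxs : x ∈ s := hts (Finset.mem_insert_self _ _)
              have hxv : x ≠ v := fun h => hv (h ▸ hxs)
              by_cases hG : G.Adj x v
              · exact C.matching x v hG (φ x) (h1 x hxs) a ha b hb ha' hb'
              · exact absurd ha' (C.nonadj x v hxv hG _ (h1 x hxs) a ha)
            have h4 := iht (fun y hy => hts (Finset.mem_insert_of_mem hy))
            omega
        exact hle s (Finset.Subset.refl _)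
      have hlt : F.ncard < (C.L v).ncard := by
        rw [hC v]
        have : (insert v s).card ≤ Fintype.card V := Finset.card_le_univ _
        rw [Finset.card_insert_of_notMem hv] at this
        omega
      obtain ⟨w, hw, hwF⟩ := Set.exists_mem_notMem_of_ncard_lt_ncard hlt (Set.toFinite _)
      refine ⟨Function.update φ v w, ?_, ?_⟩
      · intro u hu
        by_cases huv : u = v
        · subst huv
          rw [Function.update_self]; exact hw
        · rw [Function.update_of_ne huv]
          exact h1 u (Finset.mem_of_mem_insert_of_ne hu huv)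
      · have hw' : ∀ u ∈ s, ¬ C.H.Adj (φ u) w := by
          intro u hu h
          apply hwF
          exact Set.mem_iUnion₂.2 ⟨u, hu, hw, h⟩
        intro a ha b hb
        by_cases hav : a = v
        · by_cases hbv : b = v
          · rw [hav, hbv]
            exact C.H.irrefl
          · rw [hav, Function.update_self, Function.update_of_ne hbv]
            intro h
            exact hw' b (Finset.mem_of_mem_insert_of_ne hb hbv) h.symm
        · by_cases hbv : b = v
          · rw [hbv, Function.update_self, Function.update_of_ne hav]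
            exact hw' a (Finset.mem_of_mem_insert_of_ne ha hav)
          · rw [Function.update_of_ne hav, Function.update_of_ne hbv]
            exact h2 a (Finset.mem_of_mem_insert_of_ne ha hav) b
              (Finset.mem_of_mem_insert_of_ne hb hbv)
  obtain ⟨φ, h1, h2⟩ := key Finset.univ
  exact ⟨φ, fun v => h1 v (Finset.mem_univ v), fun u v => h2 u (Finset.mem_univ u) v
    (Finset.mem_univ v)⟩

lemma chiDP_mem [Finite V] (G : SimpleGraph V) : chiDP G ∈ Good G :=
  Nat.sInf_mem (good_nonempty G)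

lemma chiDP_pos [Finite V] [Nonempty V] (G : SimpleGraph V) : 1 ≤ chiDP G := by
  by_contra h
  have h0 : chiDP G = 0 := by omega
  have h1 := chiDP_mem G
  rw [h0] at h1
  have h2 := h1 Empty (ofPart (⊥ : SimpleGraph Empty) (fun w => w.elim) (fun a => a.elim)
    (fun a => a.elim) (fun a => a.elim)) (by
      intro v
      rw [Set.ncard_eq_zero (Set.toFinite _)]
      ext w
      exact w.elim)
  rw [colorings_nonempty_iff] at h2
  obtain ⟨φ, _⟩ := h2
  exact (φ (Classical.arbitrary V)).elim

/-- There is a cover of minimum number of colourings. -/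
lemma exists_min_cover (G : SimpleGraph V) [Finite V] (m : ℕ) :
    ∃ (W : Type) (_ : Finite W) (C : Cover G W), C.IsFold m ∧ C.colorings.ncard = PDP G m := by
  have hne : {n | ∃ (W : Type) (_ : Finite W) (C : Cover G W),
      C.IsFold m ∧ C.colorings.ncard = n}.Nonempty := by
    let H : SimpleGraph (V × Fin m) :=
      { Adj := fun a b => a.1 = b.1 ∧ a.2 ≠ b.2
        symm := by
          constructor
          rintro a b ⟨h1, h2⟩
          exact ⟨h1.symm, h2.symm⟩
        loopless := by
          constructor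
          rintro a ⟨_, h2⟩
          exact h2 rfl }
    refine ⟨_, V × Fin m, inferInstance, ofPart H Prod.fst ?_ ?_ ?_, ?_, rfl⟩
    · intro a b hne h
      exact ⟨h, fun h' => hne (Prod.ext h h')⟩
    · intro a b b' hab _ _ hne
      exact absurd hab.1 hne
    · intro a b hab hne
      exact absurd hab.1 hne
    · intro v
      have : ((ofPart (G := G) H Prod.fst (by
          intro a b hne h
          exact ⟨h, fun h' => hne (Prod.ext h h')⟩) (by
          intro a b b' hab _ _ hne
          exact absurd hab.1 hne) (by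
          intro a b hab hne
          exact absurd hab.1 hne)).L v) = (fun i : Fin m => (v, i)) '' Set.univ := by
        ext ⟨x, i⟩
        simp only [ofPart, Set.mem_ofPred_eq, Set.image_univ, Set.mem_range, Prod.mk.injEq,
          exists_eq_right]
        exact eq_comm
      rw [this, Set.ncard_image_of_injective _ (fun i j h => (Prod.mk.inj h).2), Set.ncard_univ,
        Nat.card_fin]
  obtain ⟨W, hW, C, h1, h2⟩ := Nat.sInf_mem hne
  exact ⟨W, hW, C, h1, h2⟩

end basic

/-! ### The upper bound `χ_DP(G □ K_{k,t}) ≤ χ_DP(G) + k` -/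

section upper

variable {V : Type} {G : SimpleGraph V}

lemma box_same (G : SimpleGraph V) {U : Type} (K : SimpleGraph U) (j : U) (u v : V) :
    (G □ K).Adj (u, j) (v, j) ↔ G.Adj u v := by
  rw [boxProd_adj]
  simp

lemma mk_inj {U : Type} (j : U) : Function.Injective (fun v : V => (v, j)) :=
  fun _ _ h => (Prod.mk.inj h).1

lemma upper_mem [Finite V] (k t c : ℕ) (hc : c ∈ Good G) :
    c + k ∈ Good (G □ completeBipartiteGraph (Fin k) (Fin t)) := by
  classical
  intro W _ C hC
  rw [colorings_nonempty_iff]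
  have hex : ∀ i : Fin k, ∃ φ : V → W, (∀ v, φ v ∈ C.L (v, Sum.inl i)) ∧
      (∀ v, φ v ∈ (Set.univ : Set W)) ∧ ∀ u v, ¬ C.H.Adj (φ u) (φ v) := by
    intro i
    refine exists_trans hc C (fun v => (v, Sum.inl i)) (mk_inj _) (box_same G _ _) Set.univ ?_
    intro v
    rw [Set.inter_univ, hC]
    omega
  choose φ hφ1 _ hφ2 using hex
  let T : Set W := {w | ∀ i u, ¬ C.H.Adj (φ i u) w}
  have hex2 : ∀ j : Fin t, ∃ ψ : V → W, (∀ v, ψ v ∈ C.L (v, Sum.inr j)) ∧
      (∀ v, ψ v ∈ T) ∧ ∀ u v, ¬ C.H.Adj (ψ u) (ψ v) := by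
    intro j
    refine exists_trans hc C (fun v => (v, Sum.inr j)) (mk_inj _) (box_same G _ _) T ?_
    intro v
    have hsub : C.L (v, Sum.inr j) ⊆ (C.L (v, Sum.inr j) ∩ T) ∪
        ⋃ i ∈ (Finset.univ : Finset (Fin k)), {w | w ∈ C.L (v, Sum.inr j) ∧
          ∃ u, C.H.Adj (φ i u) w} := by
      intro w hw
      by_cases hwT : w ∈ T
      · exact Or.inl ⟨hw, hwT⟩
      · right
        have : ∃ i u, C.H.Adj (φ i u) w := by
          by_contra hcon
          apply hwT
          intro i u h
          exact hcon ⟨i, u, h⟩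
        obtain ⟨i, u, h⟩ := this
        exact Set.mem_iUnion₂.2 ⟨i, Finset.mem_univ i, hw, u, h⟩
    have hle : ∀ s : Finset (Fin k), (⋃ i ∈ s, {w | w ∈ C.L (v, Sum.inr j) ∧
          ∃ u, C.H.Adj (φ i u) w}).ncard ≤ s.card := by
      intro s
      induction s using Finset.induction_on with
      | empty => simp
      | insert i s hi ih =>
        rw [Finset.set_biUnion_insert, Finset.card_insert_of_notMem hi]
        refine le_trans (Set.ncard_union_le _ _) ?_
        have h3 : ({w | w ∈ C.L (v, Sum.inr j) ∧ ∃ u, C.H.Adj (φ i u) w} : Set W).ncard ≤ 1 := by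
          rw [Set.ncard_le_one (Set.toFinite _)]
          rintro a ⟨ha, u, hu⟩ b ⟨hb, u', hu'⟩
          have huv : ∀ (x : V) (y : W), y ∈ C.L (v, Sum.inr j) → C.H.Adj (φ i x) y → x = v := by
            intro x y hy hxy
            by_contra hne
            refine C.nonadj (x, Sum.inl i) (v, Sum.inr j) ?_ ?_ _ (hφ1 i x) y hy hxy
            · intro h
              exact hne (Prod.mk.inj h).1
            · rw [boxProd_adj]
              rintro (⟨_, h⟩ | ⟨_, h⟩)
              · simp at h
              · exact hne h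
          have e1 := huv u a ha hu
          have e2 := huv u' b hb hu'
          subst e1
          subst e2
          refine C.matching (u', Sum.inl i) (u', Sum.inr j) ?_ _ (hφ1 i _) a ha b hb hu hu'
          rw [boxProd_adj]
          right
          simp
        omega
    have h5 := hle Finset.univ
    have h6 := Set.ncard_le_ncard hsub (Set.toFinite _)
    have h7 := Set.ncard_union_le (C.L (v, Sum.inr j) ∩ T)
      (⋃ i ∈ (Finset.univ : Finset (Fin k)), {w | w ∈ C.L (v, Sum.inr j) ∧
          ∃ u, C.H.Adj (φ i u) w})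
    rw [hC] at h6
    rw [Finset.card_univ, Fintype.card_fin] at h5
    omega
  choose ψ hψ1 hψT hψ2 using hex2
  refine ⟨fun p => Sum.elim (fun i => φ i p.1) (fun j => ψ j p.1) p.2, ?_, ?_⟩
  · rintro ⟨v, i | j⟩
    · exact hφ1 i v
    · exact hψ1 j v
  · rintro ⟨u, i | j⟩ ⟨v, i' | j'⟩
    · show ¬ C.H.Adj (φ i u) (φ i' v)
      by_cases hii : i = i'
      · subst hii
        exact hφ2 i u v
      · refine C.nonadj (u, Sum.inl i) (v, Sum.inl i') ?_ ?_ _ (hφ1 i u) _ (hφ1 i' v)
        · intro h
          apply hii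
          simpa using (Prod.mk.inj h).2
        · rw [boxProd_adj]
          rintro (⟨_, h⟩ | ⟨h, _⟩)
          · apply hii
            simpa using h
          · simp at h
    · show ¬ C.H.Adj (φ i u) (ψ j' v)
      exact hψT j' v i u
    · show ¬ C.H.Adj (ψ j u) (φ i' v)
      intro h
      exact hψT j u i' v h.symm
    · show ¬ C.H.Adj (ψ j u) (ψ j' v)
      by_cases hii : j = j'
      · subst hii
        exact hψ2 j u v
      · refine C.nonadj (u, Sum.inr j) (v, Sum.inr j') ?_ ?_ _ (hψ1 j u) _ (hψ1 j' v)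
        · intro h
          apply hii
          simpa using (Prod.mk.inj h).2
        · rw [boxProd_adj]
          rintro (⟨_, h⟩ | ⟨h, _⟩)
          · apply hii
            simpa using h
          · simp at h

end upper

/-! ### The blocking cover -/

section lower

variable {V W0 WB : Type} {G : SimpleGraph V}

/-- The graph on the lists of one copy of `G` of the `t`-side. -/
def TH (CB : Cover G WB) (k : ℕ) : SimpleGraph (WB ⊕ (V × Fin k)) where
  Adj x y := match x, y with
    | Sum.inl b, Sum.inl b' => CB.H.Adj b b'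
    | Sum.inl b, Sum.inr p => b ∈ CB.L p.1
    | Sum.inr p, Sum.inl b => b ∈ CB.L p.1
    | Sum.inr p, Sum.inr p' => p.1 = p'.1 ∧ p.2 ≠ p'.2
  symm := by
    constructor
    rintro (x | x) (y | y) h
    · exact CB.H.adj_symm h
    · exact h
    · exact h
    · exact ⟨h.1.symm, h.2.symm⟩
  loopless := by
    constructor
    rintro (x | x) h
    · exact CB.H.irrefl h
    · exact h.2 rfl

/-- The graph of the blocking cover. -/
def BH (C0 : Cover G W0) (CB : Cover G WB) (k t : ℕ)
    (R : Fin t → Fin k → V → W0 → Fin k → Prop) :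
    SimpleGraph ((W0 × Fin k) ⊕ ((WB ⊕ (V × Fin k)) × Fin t)) where
  Adj x y := match x, y with
    | Sum.inl a, Sum.inl b => a.2 = b.2 ∧ C0.H.Adj a.1 b.1
    | Sum.inl a, Sum.inr (Sum.inr p, j) => a.1 ∈ C0.L p.1 ∧ R j a.2 p.1 a.1 p.2
    | Sum.inl _, Sum.inr (Sum.inl _, _) => False
    | Sum.inr (Sum.inr p, j), Sum.inl a => a.1 ∈ C0.L p.1 ∧ R j a.2 p.1 a.1 p.2
    | Sum.inr (Sum.inl _, _), Sum.inl _ => False
    | Sum.inr x, Sum.inr y => x.2 = y.2 ∧ (TH CB k).Adj x.1 y.1
  symm := by
    constructor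
    rintro (a | ⟨x | x, j⟩) (b | ⟨y | y, j'⟩) h
    · exact ⟨h.1.symm, h.2.symm⟩
    · exact h
    · exact h
    · exact h
    · exact ⟨h.1.symm, (TH CB k).adj_symm h.2⟩
    · exact ⟨h.1.symm, (TH CB k).adj_symm h.2⟩
    · exact h
    · exact ⟨h.1.symm, (TH CB k).adj_symm h.2⟩
    · exact ⟨h.1.symm, (TH CB k).adj_symm h.2⟩
  loopless := by
    constructor
    rintro (a | ⟨x | x, j⟩) h
    · exact C0.H.irrefl h.2
    · exact (TH CB k).irrefl h.2
    · exact (TH CB k).irrefl h.2

/-- The vertex below. -/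
noncomputable def bpart (C0 : Cover G W0) (CB : Cover G WB) (k t : ℕ) :
    ((W0 × Fin k) ⊕ ((WB ⊕ (V × Fin k)) × Fin t)) → V × (Fin k ⊕ Fin t)
  | Sum.inl a => (C0.part a.1, Sum.inl a.2)
  | Sum.inr (Sum.inl b, j) => (CB.part b, Sum.inr j)
  | Sum.inr (Sum.inr p, j) => (p.1, Sum.inr j)

/-- The blocking cover. -/
noncomputable def BC (C0 : Cover G W0) (CB : Cover G WB) (k t : ℕ)
    (R : Fin t → Fin k → V → W0 → Fin k → Prop)
    (hR1 : ∀ j i v a l l', R j i v a l → R j i v a l' → l = l')
    (hR2 : ∀ j i v a a' l, R j i v a l → R j i v a' l → a = a') :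
    Cover (G □ completeBipartiteGraph (Fin k) (Fin t))
      ((W0 × Fin k) ⊕ ((WB ⊕ (V × Fin k)) × Fin t)) :=
  ofPart (BH C0 CB k t R) (bpart C0 CB k t)
    (by
      rintro (⟨a, i⟩ | ⟨x | ⟨v, l⟩, j⟩) (⟨b, i'⟩ | ⟨y | ⟨v', l'⟩, j'⟩) hne h
      · simp only [bpart, Prod.mk.injEq, Sum.inl.injEq] at h
        refine ⟨h.2, ?_⟩
        refine C0.clique (C0.part b) ((C0.mem_iff _ _).2 h.1) ((C0.mem_iff _ _).2 rfl) ?_
        rintro rfl
        apply hne
        rw [h.2]
      · simp [bpart] at h
      · simp [bpart] at h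
      · simp [bpart] at h
      · simp only [bpart, Prod.mk.injEq, Sum.inr.injEq] at h
        refine ⟨h.2, ?_⟩
        refine CB.clique (CB.part y) ((CB.mem_iff _ _).2 h.1) ((CB.mem_iff _ _).2 rfl) ?_
        rintro rfl
        apply hne
        rw [h.2]
      · simp only [bpart, Prod.mk.injEq, Sum.inr.injEq] at h
        exact ⟨h.2, (CB.mem_iff _ _).2 h.1⟩
      · simp [bpart] at h
      · simp only [bpart, Prod.mk.injEq, Sum.inr.injEq] at h
        exact ⟨h.2, (CB.mem_iff _ _).2 h.1.symm⟩
      · simp only [bpart, Prod.mk.injEq, Sum.inr.injEq] at h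
        refine ⟨h.2, h.1, ?_⟩
        intro hl
        apply hne
        have hl' : l = l' := hl
        rw [h.1, h.2, hl'])
    (by
      rintro (⟨a, i⟩ | ⟨x | ⟨v, l⟩, j⟩) (⟨b, i'⟩ | ⟨y | ⟨v', l'⟩, j'⟩)
        (⟨c, i''⟩ | ⟨z | ⟨v'', l''⟩, j''⟩) h1 h2 h3 h4
      · simp only [bpart, Prod.mk.injEq, Sum.inl.injEq, ne_eq] at h3 h4
        have hi : i = i' := h1.1
        have h5 : C0.part a ≠ C0.part b := fun h => h4 ⟨h, hi⟩
        have h6 := C0.matching _ _ (C0.adj_part h1.2 h5) a ((C0.mem_iff _ _).2 rfl) b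
          ((C0.mem_iff _ _).2 rfl) c ((C0.mem_iff _ _).2 h3.1.symm) h1.2 h2.2
        rw [h6, h3.2]
      · simp [bpart] at h3
      · simp [bpart] at h3
      · simp [bpart] at h3
      · exact h1.elim
      · exact h1.elim
      · simp [bpart] at h3
      · exact h2.elim
      · simp only [bpart, Prod.mk.injEq, Sum.inr.injEq] at h3
        obtain ⟨rfl, rfl⟩ := h3
        have h5 : l' = l'' := hR1 j' i v' a l' l'' h1.2 h2.2
        rw [h5]
      · exact h1.elim
      · exact h1.elim
      · exact h1.elim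
      · simp [bpart] at h3
      · simp only [bpart, Prod.mk.injEq, Sum.inr.injEq, ne_eq] at h3 h4
        have hj : j = j' := h1.1
        have h5 : CB.part x ≠ CB.part y := fun h => h4 ⟨h, hj⟩
        have h6 := CB.matching _ _ (CB.adj_part h1.2 h5) x ((CB.mem_iff _ _).2 rfl) y
          ((CB.mem_iff _ _).2 rfl) z ((CB.mem_iff _ _).2 h3.1.symm) h1.2 h2.2
        rw [h6, h3.2]
      · simp only [bpart, Prod.mk.injEq, Sum.inr.injEq, ne_eq] at h3 h4
        exfalso
        apply h4
        have h5 : x ∈ CB.L v'' := h2.2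
        refine ⟨?_, h1.1⟩
        rw [h3.1]
        exact (CB.mem_iff _ _).1 h5
      · simp [bpart] at h3
      · simp only [bpart, Prod.mk.injEq, Sum.inr.injEq, ne_eq] at h3 h4
        exfalso
        apply h4
        have h5 : x ∈ CB.L v' := h1.2
        exact ⟨(CB.mem_iff _ _).1 h5, h1.1⟩
      · simp only [bpart, Prod.mk.injEq, Sum.inr.injEq, ne_eq] at h3 h4
        exfalso
        apply h4
        have h5 : x ∈ CB.L v' := h1.2
        exact ⟨(CB.mem_iff _ _).1 h5, h1.1⟩
      · simp only [bpart, Prod.mk.injEq, Sum.inl.injEq] at h3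
        obtain ⟨h3, rfl⟩ := h3
        have h5 : b = c := hR2 j i' v b c l h1.2 h2.2
        rw [h5]
      · simp [bpart] at h3
      · simp [bpart] at h3
      · simp [bpart] at h3
      · simp only [bpart, Prod.mk.injEq, Sum.inr.injEq, ne_eq] at h3 h4
        exfalso
        apply h4
        have h5 : y ∈ CB.L v := h1.2
        exact ⟨((CB.mem_iff _ _).1 h5).symm, h1.1⟩
      · simp only [bpart, Prod.mk.injEq, Sum.inr.injEq, ne_eq] at h3 h4
        exfalso
        apply h4
        have h5 : y ∈ CB.L v := h1.2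
        exact ⟨((CB.mem_iff _ _).1 h5).symm, h1.1⟩
      · simp [bpart] at h3
      · simp only [bpart, Prod.mk.injEq, Sum.inr.injEq, ne_eq] at h3 h4
        exfalso
        apply h4
        have h5 : v = v' := h1.2.1
        exact ⟨h5, h1.1⟩
      · simp only [bpart, Prod.mk.injEq, Sum.inr.injEq, ne_eq] at h3 h4
        exfalso
        apply h4
        have h5 : v = v' := h1.2.1
        exact ⟨h5, h1.1⟩)
    (by
      rintro (⟨a, i⟩ | ⟨x | ⟨v, l⟩, j⟩) (⟨b, i'⟩ | ⟨y | ⟨v', l'⟩, j'⟩) h1 h4
      · have hi : i = i' := h1.1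
        subst hi
        simp only [bpart, Prod.mk.injEq, ne_eq, and_true] at h4
        exact (box_same G _ _ _ _).2 (C0.adj_part h1.2 h4)
      · exact h1.elim
      · have h5 : a ∈ C0.L v' := h1.1
        rw [C0.mem_iff] at h5
        rw [boxProd_adj]
        right
        simp [bpart, h5]
      · exact h1.elim
      · have hi : j = j' := h1.1
        subst hi
        simp only [bpart, Prod.mk.injEq, ne_eq, and_true] at h4
        exact (box_same G _ _ _ _).2 (CB.adj_part h1.2 h4)
      · exfalso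
        apply h4
        have h5 : x ∈ CB.L v' := h1.2
        rw [CB.mem_iff] at h5
        have hi : j = j' := h1.1
        simp [bpart, h5, hi]
      · have h5 : b ∈ C0.L v := h1.1
        rw [C0.mem_iff] at h5
        rw [boxProd_adj]
        right
        simp [bpart, h5]
      · exfalso
        apply h4
        have h5 : y ∈ CB.L v := h1.2
        rw [CB.mem_iff] at h5
        have hi : j = j' := h1.1
        simp [bpart, h5, hi]
      · exfalso
        apply h4
        have h5 : v = v' := h1.2.1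
        have hi : j = j' := h1.1
        simp [bpart, h5, hi])

variable {k t m : ℕ}

lemma BC_L_inl (C0 : Cover G W0) (CB : Cover G WB) (R : Fin t → Fin k → V → W0 → Fin k → Prop)
    (hR1 : ∀ j i v a l l', R j i v a l → R j i v a l' → l = l')
    (hR2 : ∀ j i v a a' l, R j i v a l → R j i v a' l → a = a') (v : V) (i : Fin k) :
    (BC C0 CB k t R hR1 hR2).L (v, Sum.inl i) =
      (fun a : W0 => (Sum.inl (a, i) : (W0 × Fin k) ⊕ ((WB ⊕ (V × Fin k)) × Fin t))) '' C0.L v := by
  ext x
  rcases x with ⟨a, i'⟩ | ⟨b | ⟨v', l⟩, j⟩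
  · constructor
    · intro h
      have h' : (C0.part a, (Sum.inl i' : Fin k ⊕ Fin t)) = (v, Sum.inl i) := h
      simp only [Prod.mk.injEq, Sum.inl.injEq] at h'
      exact ⟨a, (C0.mem_iff _ _).2 h'.1, by rw [h'.2]⟩
    · rintro ⟨a', ha', h⟩
      simp only [Sum.inl.injEq, Prod.mk.injEq] at h
      obtain ⟨rfl, rfl⟩ := h
      show (C0.part a', (Sum.inl i : Fin k ⊕ Fin t)) = (v, Sum.inl i)
      rw [(C0.mem_iff _ _).1 ha']
  · constructor
    · intro h
      have h' : (CB.part b, (Sum.inr j : Fin k ⊕ Fin t)) = (v, Sum.inl i) := h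
      simp at h'
    · rintro ⟨a', ha', h⟩
      simp at h
  · constructor
    · intro h
      have h' : (v', (Sum.inr j : Fin k ⊕ Fin t)) = (v, Sum.inl i) := h
      simp at h'
    · rintro ⟨a', ha', h⟩
      simp at h

lemma BC_L_inr (C0 : Cover G W0) (CB : Cover G WB) (R : Fin t → Fin k → V → W0 → Fin k → Prop)
    (hR1 : ∀ j i v a l l', R j i v a l → R j i v a l' → l = l')
    (hR2 : ∀ j i v a a' l, R j i v a l → R j i v a' l → a = a') (v : V) (j : Fin t) :
    (BC C0 CB k t R hR1 hR2).L (v, Sum.inr j) =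
      ((fun b : WB => (Sum.inr (Sum.inl b, j) :
        (W0 × Fin k) ⊕ ((WB ⊕ (V × Fin k)) × Fin t))) '' CB.L v) ∪
      ((fun l : Fin k => (Sum.inr (Sum.inr (v, l), j) :
        (W0 × Fin k) ⊕ ((WB ⊕ (V × Fin k)) × Fin t))) '' Set.univ) := by
  ext x
  rcases x with ⟨a, i'⟩ | ⟨b | ⟨v', l⟩, j'⟩
  · constructor
    · intro h
      have h' : (C0.part a, (Sum.inl i' : Fin k ⊕ Fin t)) = (v, Sum.inr j) := h
      simp at h'
    · rintro (⟨a', ha', h⟩ | ⟨a', ha', h⟩) <;> simp at h
  · constructor
    · intro h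
      have h' : (CB.part b, (Sum.inr j' : Fin k ⊕ Fin t)) = (v, Sum.inr j) := h
      simp only [Prod.mk.injEq, Sum.inr.injEq] at h'
      exact Or.inl ⟨b, (CB.mem_iff _ _).2 h'.1, by rw [h'.2]⟩
    · rintro (⟨a', ha', h⟩ | ⟨a', ha', h⟩)
      · simp only [Sum.inr.injEq, Prod.mk.injEq, Sum.inl.injEq] at h
        obtain ⟨rfl, rfl⟩ := h
        show (CB.part a', (Sum.inr j : Fin k ⊕ Fin t)) = (v, Sum.inr j)
        rw [(CB.mem_iff _ _).1 ha']
      · simp at h
  · constructor
    · intro h
      have h' : (v', (Sum.inr j' : Fin k ⊕ Fin t)) = (v, Sum.inr j) := h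
      simp only [Prod.mk.injEq, Sum.inr.injEq] at h'
      exact Or.inr ⟨l, trivial, by rw [h'.1, h'.2]⟩
    · rintro (⟨a', ha', h⟩ | ⟨a', ha', h⟩)
      · simp at h
      · simp only [Sum.inr.injEq, Prod.mk.injEq] at h
        obtain ⟨⟨rfl, rfl⟩, rfl⟩ := h
        rfl

lemma BC_fold [Finite V] [Finite W0] [Finite WB] (C0 : Cover G W0) (CB : Cover G WB)
    (R : Fin t → Fin k → V → W0 → Fin k → Prop)
    (hR1 : ∀ j i v a l l', R j i v a l → R j i v a l' → l = l')
    (hR2 : ∀ j i v a a' l, R j i v a l → R j i v a' l → a = a')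
    (h0 : C0.IsFold (m + k)) (hB : CB.IsFold m) :
    (BC C0 CB k t R hR1 hR2).IsFold (m + k) := by
  rintro ⟨v, i | j⟩
  · rw [BC_L_inl, Set.ncard_image_of_injective, h0]
    intro a b h
    simpa using h
  · rw [BC_L_inr, Set.ncard_union_eq, Set.ncard_image_of_injective, Set.ncard_image_of_injective,
      hB, Set.ncard_univ, Nat.card_fin]
    · intro a b h
      simpa using h
    · intro a b h
      simpa using h
    · rw [Set.disjoint_left]
      rintro _ ⟨a, _, rfl⟩ ⟨b, _, h⟩
      simp at h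

/-- The blocking cover has no colouring if every combination is blocked by some copy. -/
lemma BC_no [Finite V] [Finite W0] [Finite WB] (C0 : Cover G W0) (CB : Cover G WB)
    (R : Fin t → Fin k → V → W0 → Fin k → Prop)
    (hR1 : ∀ j i v a l l', R j i v a l → R j i v a l' → l = l')
    (hR2 : ∀ j i v a a' l, R j i v a l → R j i v a' l → a = a')
    (hB : ¬ CB.Trans.Nonempty)
    (hblock : ∀ φ : Fin k → V → W0, (∀ i, φ i ∈ C0.Trans) →
      ∃ j, ∀ v l, ∃ i, R j i v (φ i v) l) :
    ¬ (BC C0 CB k t R hR1 hR2).Trans.Nonempty := by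
  rintro ⟨Φ, hΦ1, hΦ2⟩
  have h1 : ∀ i v, ∃ a, a ∈ C0.L v ∧ Sum.inl (a, i) = Φ (v, Sum.inl i) := by
    intro i v
    have h := hΦ1 (v, Sum.inl i)
    rw [BC_L_inl] at h
    exact h
  choose φ hφ1 hφ2 using h1
  have hφT : ∀ i, φ i ∈ C0.Trans := by
    intro i
    refine ⟨hφ1 i, ?_⟩
    intro u v h
    apply hΦ2 (u, Sum.inl i) (v, Sum.inl i)
    rw [← hφ2 i u, ← hφ2 i v]
    exact ⟨rfl, h⟩
  obtain ⟨j, hj⟩ := hblock φ hφT
  apply hB
  have h2 : ∀ v, ∃ b, b ∈ CB.L v ∧ Sum.inr (Sum.inl b, j) = Φ (v, Sum.inr j) := by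
    intro v
    have h := hΦ1 (v, Sum.inr j)
    rw [BC_L_inr] at h
    rcases h with h | ⟨l, _, h⟩
    · exact h
    · exfalso
      obtain ⟨i, hi⟩ := hj v l
      apply hΦ2 (v, Sum.inl i) (v, Sum.inr j)
      rw [← hφ2 i v, ← h]
      exact ⟨hφ1 i v, hi⟩
  choose ψ hψ1 hψ2 using h2
  refine ⟨ψ, hψ1, ?_⟩
  intro u v h
  apply hΦ2 (u, Sum.inr j) (v, Sum.inr j)
  rw [← hψ2 u, ← hψ2 v]
  exact ⟨rfl, h⟩

end lower

/-- For every finite nonempty graph `G` and every `k ≥ 2`, the least `t` for which
`χ_DP(G □ K_{k,t}) = χ_DP(G) + k` exists and is strictly smaller than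
`P_DP(G, χ_DP(G) + k - 1) ^ k`.  In particular no graph attains equality for every `k`. -/
theorem result (V : Type) [Finite V] [Nonempty V] (G : SimpleGraph V) (k : ℕ) (hk : 2 ≤ k) :
    ∃ t, IsLeast {t | chiDP (G □ completeBipartiteGraph (Fin k) (Fin t)) = chiDP G + k} t ∧
      t < (PDP G (chiDP G + k - 1)) ^ k := by
  classical
  have hc := chiDP_mem G
  have hpos := chiDP_pos G
  obtain ⟨m, hm⟩ : ∃ m, chiDP G = m + 1 := ⟨chiDP G - 1, by omega⟩
  rw [hm] at hc
  have hmk : chiDP G + k - 1 = m + k := by omega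
  rw [hmk]
  obtain ⟨W0, _, C0, hC0, hP⟩ := exists_min_cover G (m + k)
  rw [ncard_colorings] at hP
  -- a bad cover
  have hbad : ¬ (m ∈ Good G) := by
    intro h
    have : chiDP G ≤ m := Nat.sInf_le h
    omega
  have hbad2 : ∃ (WB : Type) (_ : Finite WB) (CB : Cover G WB), CB.IsFold m ∧
      ¬ CB.Trans.Nonempty := by
    by_contra hcon
    apply hbad
    intro W _ C hC
    rw [colorings_nonempty_iff]
    by_contra h
    exact hcon ⟨W, inferInstance, C, hC, h⟩
  obtain ⟨WB, _, CB, hCB, hCB2⟩ := hbad2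
  -- two colourings that differ everywhere
  obtain ⟨φ, hφ1, _, hφ2⟩ := exists_trans hc C0 (fun v => v) (fun _ _ h => h)
    (fun _ _ => Iff.rfl) Set.univ (by
      intro v
      rw [Set.inter_univ, hC0]
      omega)
  obtain ⟨ψ, hψ1, hψT, hψ2⟩ := exists_trans hc C0 (fun v => v) (fun _ _ h => h)
    (fun _ _ => Iff.rfl) {w | ∀ v, w ≠ φ v} (by
      intro v
      have hsub : C0.L v ⊆ (C0.L v ∩ {w | ∀ v, w ≠ φ v}) ∪ {φ v} := by
        intro w hw
        by_cases h : w = φ v
        · exact Or.inr h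
        · left
          refine ⟨hw, ?_⟩
          intro u hu
          apply h
          have h1 : C0.part w = v := (C0.mem_iff _ _).1 hw
          have h2 : C0.part (φ u) = u := (C0.mem_iff _ _).1 (hφ1 u)
          rw [← hu, h1] at h2
          rw [h2]
          exact hu
      have h3 := Set.ncard_le_ncard hsub (Set.toFinite _)
      have h4 := Set.ncard_union_le (C0.L v ∩ {w | ∀ v, w ≠ φ v}) {φ v}
      rw [hC0 v] at h3
      rw [Set.ncard_singleton] at h4
      show m + 1 ≤ (C0.L v ∩ {w | ∀ v, w ≠ φ v}).ncard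
      omega)
  have hne : ∀ v, ψ v ≠ φ v := fun v => hψT v v
  let φ' : C0.Trans := ⟨φ, hφ1, hφ2⟩
  let ψ' : C0.Trans := ⟨ψ, hψ1, hψ2⟩
  let i0 : Fin k := ⟨0, by omega⟩
  let i1 : Fin k := ⟨1, by omega⟩
  have hi01 : i0 ≠ i1 := by
    intro h
    have := congrArg Fin.val h
    simp [i0, i1] at this
  let ρψ : Fin k → C0.Trans := fun i => if i = i0 ∨ i = i1 then ψ' else φ'
  let ρφ : Fin k → C0.Trans := fun _ => φ'
  have hρ : ρφ ≠ ρψ := by
    intro h
    have h1 := congrFun h i0
    have h2 : φ' = ψ' := by simpa [ρφ, ρψ] using h1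
    have h3 : φ = ψ := congrArg Subtype.val h2
    exact hne (Classical.arbitrary V) (congrFun h3 _).symm
  -- index set of the copies
  let J := {ρ : Fin k → C0.Trans // ρ ≠ ρψ}
  have hT : Nat.card C0.Trans = PDP G (m + k) := by
    rw [← hP]
    rfl
  have hJ : Nat.card J = PDP G (m + k) ^ k - 1 := by
    have := Fintype.ofFinite C0.Trans
    have h1 : Nat.card J = Fintype.card (Fin k → C0.Trans) - 1 := by
      rw [Nat.card_eq_fintype_card]
      show Fintype.card {ρ : Fin k → C0.Trans // ρ ≠ ρψ} = _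
      rw [Fintype.card_subtype_compl, Fintype.card_subtype_eq]
    rw [h1, Fintype.card_fun, Fintype.card_fin, ← hT, Nat.card_eq_fintype_card]
  have hPpos : 0 < PDP G (m + k) := by
    rw [← hT]
    exact Nat.card_pos_iff.2 ⟨⟨φ'⟩, inferInstance⟩
  have hPk : 0 < PDP G (m + k) ^ k := Nat.pow_pos hPpos
  let t := PDP G (m + k) ^ k - 1
  have e : Fin t ≃ J := (Finite.equivFinOfCardEq hJ).symm
  let R : Fin t → Fin k → V → W0 → Fin k → Prop := fun j i v a l =>
    (a = ((e j).1 i).1 v ∧ l = i) ∨
      ((e j).1 = ρφ ∧ a = ψ v ∧ ((i = i0 ∧ l = i1) ∨ (i = i1 ∧ l = i0)))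
  have hR1 : ∀ j i v a l l', R j i v a l → R j i v a l' → l = l' := by
    rintro j i v a l l' (⟨h1, h2⟩ | ⟨h1, h2, h3⟩) (⟨h4, h5⟩ | ⟨h4, h5, h6⟩)
    · rw [h2, h5]
    · exfalso
      rw [h4] at h1
      exact hne v (h5.symm.trans h1)
    · exfalso
      rw [h1] at h4
      exact hne v (h2.symm.trans h4)
    · rcases h3 with ⟨h7, h8⟩ | ⟨h7, h8⟩ <;> rcases h6 with ⟨h9, h10⟩ | ⟨h9, h10⟩
      · rw [h8, h10]
      · exact absurd (h7.symm.trans h9) hi01
      · exact absurd (h9.symm.trans h7) hi01
      · rw [h8, h10]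
  have hR2 : ∀ j i v a a' l, R j i v a l → R j i v a' l → a = a' := by
    rintro j i v a a' l (⟨h1, h2⟩ | ⟨h1, h2, h3⟩) (⟨h4, h5⟩ | ⟨h4, h5, h6⟩)
    · rw [h1, h4]
    · exfalso
      rcases h6 with ⟨h9, h10⟩ | ⟨h9, h10⟩
      · exact hi01 (h9.symm.trans (h2.symm.trans h10))
      · exact hi01 (h10.symm.trans (h2.trans h9))
    · exfalso
      rcases h3 with ⟨h9, h10⟩ | ⟨h9, h10⟩
      · exact hi01 (h9.symm.trans (h5.symm.trans h10))
      · exact hi01 (h10.symm.trans (h5.trans h9))
    · rw [h2, h5]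
  have hno : ¬ (BC C0 CB k t R hR1 hR2).Trans.Nonempty := by
    apply BC_no C0 CB R hR1 hR2 hCB2
    intro σ hσ
    let σ' : Fin k → C0.Trans := fun i => ⟨σ i, hσ i⟩
    by_cases hσψ : σ' = ρψ
    · refine ⟨e.symm ⟨ρφ, hρ⟩, ?_⟩
      intro v l
      have hval : ∀ i, σ i = (ρψ i).1 := fun i => by rw [← hσψ]
      have hej : (e (e.symm ⟨ρφ, hρ⟩)).1 = ρφ := by rw [Equiv.apply_symm_apply]
      by_cases hl0 : l = i0
      · refine ⟨i1, Or.inr ⟨hej, ?_, Or.inr ⟨rfl, hl0⟩⟩⟩
        rw [hval]
        simp [ρψ, ψ']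
      · by_cases hl1 : l = i1
        · refine ⟨i0, Or.inr ⟨hej, ?_, Or.inl ⟨rfl, hl1⟩⟩⟩
          rw [hval]
          simp [ρψ, ψ']
        · refine ⟨l, Or.inl ⟨?_, rfl⟩⟩
          rw [hval, hej]
          simp [ρψ, ρφ, hl0, hl1]
    · refine ⟨e.symm ⟨σ', hσψ⟩, ?_⟩
      intro v l
      refine ⟨l, Or.inl ⟨?_, rfl⟩⟩
      rw [Equiv.apply_symm_apply]
  have hfold := BC_fold C0 CB R hR1 hR2 hC0 hCB
  have hmem : t ∈ {t | chiDP (G □ completeBipartiteGraph (Fin k) (Fin t)) = chiDP G + k} := by
    show sInf (Good (G □ completeBipartiteGraph (Fin k) (Fin t))) = chiDP G + k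
    rw [hm]
    have hup := upper_mem (G := G) k t (m + 1) hc
    apply le_antisymm (Nat.sInf_le hup)
    refine le_csInf ⟨_, hup⟩ ?_
    intro m' hm'
    by_contra hlt
    apply hno
    obtain ⟨Φ, h1, _, h2⟩ := exists_trans hm' (BC C0 CB k t R hR1 hR2) (fun v => v)
      (fun _ _ h => h) (fun _ _ => Iff.rfl) Set.univ (by
        intro v
        rw [Set.inter_univ, hfold]
        omega)
    exact ⟨Φ, h1, h2⟩
  refine ⟨sInf {t | chiDP (G □ completeBipartiteGraph (Fin k) (Fin t)) = chiDP G + k},
    ⟨Nat.sInf_mem ⟨t, hmem⟩, fun t' ht' => Nat.sInf_le ht'⟩, ?_⟩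
  have h1 : sInf {t | chiDP (G □ completeBipartiteGraph (Fin k) (Fin t)) = chiDP G + k} ≤ t :=
    Nat.sInf_le hmem
  have h2 : t = PDP G (m + k) ^ k - 1 := rfl
  omega

end Pool.Agent.Results.MP_924496_co.StrictForAllK
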